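import Pool.Agent.Lib.MP_39d40e_nt.HzH

namespace Pool.Agent.Results.MP_39d40e_nt.BeyondHorizon

open Finset Filter Topology Pool.Agent.Lib.MP_39d40e_nt

theorem result (d : ℕ) [NeZero d] (hd : 2 ≤ d) (m r b : ZMod d → ℤ) (a : ZMod d → ℕ)
    (hm : ∀ i, m i ≠ 0) (hr : ∀ i, (r i : ZMod d) = i * m i)
    (hfac : ∀ i, m i = b i * a i) (hb : ∀ i, IsCoprime (b i) d) (_ha : ∀ i, ∃ n, a i ∣ d ^ n)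
    (C : Finset (ℕ × ℕ)) (hC : ∀ s ∈ C, s.1 < d * s.2 ∧ ∃ n, s.2 ∣ d ^ n)
    (closed : ∀ s ∈ C, ∀ s', 0 < P d m r a s s' → s' ∈ C)
    (comm : ∀ s ∈ C, ∀ s' ∈ C, Relation.ReflTransGen (fun t t' => 0 < P d m r a t t') s s')
    (ρ : ℕ × ℕ → ℝ) (ρ_nonneg : ∀ s ∈ C, 0 ≤ ρ s) (ρ_sum : ∑ s ∈ C, ρ s = 1)
    (ρ_stat : ∀ s' ∈ C, ∑ s ∈ C, ρ s * P d m r a s s' = ρ s')
    (p : ZMod d → ℝ) (hp : ∀ i, p i = ∑ s ∈ C with (s.1 : ZMod d) = i, ρ s)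
    (Λ : ℝ) (hΛ : Λ = ∏ i : ZMod d, |(m i : ℝ) / d| ^ p i) (expanding : 1 < Λ)
    (H : ℝ) (hH : H = ∑ s ∈ C, ρ s * Real.log (d / Nat.gcd (s.2 * a s.1) d)) (H_pos : 0 < H)
    (η : ℝ) (hη : 0 < η) :
    ∃ θ₀ : ℝ, 0 < θ₀ ∧ ∀ θ : ℝ, 0 < θ → θ ≤ θ₀ → ∃ c K : ℝ, 0 < c ∧ ∀ N : ℕ, 1 ≤ N →
      (Set.ncard {x : ℤ | |x| ≤ N ∧ (∃ s ∈ C, x ≡ s.1 [ZMOD (d * s.2 : ℕ)]) ∧
        ¬ ∀ t : ℕ, (t : ℝ) ≤ (1 + θ) * Real.log N / H →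
          |Real.log |(((T d m r)^[t] x : ℤ) : ℝ)| - (Real.log N + t * Real.log Λ)|
            ≤ η * θ * Real.log N ∧
          ∀ i, |(#{n ∈ range t | (((T d m r)^[n] x : ℤ) : ZMod d) = i} : ℝ) - p i * t|
            ≤ η * θ * Real.log N} : ℝ) ≤ K * (N : ℝ) ^ (1 - c) := by
  let L : LData := ⟨d, hd, m, r, b, a, hm, hr, hfac, hb, C, fun s hs => (hC s hs).1, closed, comm,
    ρ, ρ_nonneg, ρ_sum, ρ_stat⟩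
  have h := L.horizon hp (lam := Real.log Λ) (by rw [hΛ, funext hp]; exact L.log_Λ)
    (Real.log_pos expanding) hH H_pos hη
  obtain ⟨θ₀, h0, h⟩ := mem_nhdsGT_iff_exists_Ioc_subset.1 h
  refine ⟨θ₀, h0, fun θ h1 h2 => ?_⟩
  obtain ⟨c, K, hc, hK⟩ := Hz.PS.all (h ⟨h1, h2⟩)
  refine ⟨c, K, hc, fun N hN => le_trans (le_of_eq ?_) (hK N hN)⟩
  simp only [and_self_left]
  rfl

end Pool.Agent.Results.MP_39d40e_nt.BeyondHorizon
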