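import Pool.Agent.Lib.MP_39d40e_nt.TdZ

namespace Pool.Agent.Results.MP_39d40e_nt.TypicalDescent

open Finset Filter Topology Pool.Agent.Lib.MP_39d40e_nt

theorem result (d : ℕ) [NeZero d] (hd : 2 ≤ d) (m r b : ZMod d → ℤ) (a : ZMod d → ℕ)
    (hm : ∀ i, m i ≠ 0) (hr : ∀ i, (r i : ZMod d) = i * m i)
    (hfac : ∀ i, m i = b i * a i) (hb : ∀ i, IsCoprime (b i) d) (_ha : ∀ i, ∃ n, a i ∣ d ^ n)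
    (C : Finset (ℕ × ℕ)) (hC : ∀ s ∈ C, s.1 < d * s.2 ∧ ∃ n, s.2 ∣ d ^ n)
    (closed : ∀ s ∈ C, ∀ s', 0 < P d m r a s s' → s' ∈ C)
    (comm : ∀ s ∈ C, ∀ s' ∈ C, Relation.ReflTransGen (fun t t' => 0 < P d m r a t t') s s')
    (ρ : ℕ × ℕ → ℝ) (ρ_nonneg : ∀ s ∈ C, 0 ≤ ρ s) (ρ_sum : ∑ s ∈ C, ρ s = 1)
    (ρ_stat : ∀ s' ∈ C, ∑ s ∈ C, ρ s * P d m r a s s' = ρ s')
    (p : ZMod d → ℝ) (hp : ∀ i, p i = ∑ s ∈ C with (s.1 : ZMod d) = i, ρ s)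
    (Λ : ℝ) (hΛ : Λ = ∏ i : ZMod d, |(m i : ℝ) / d| ^ p i) (contracting : Λ < 1)
    (f : ZMod d → ℝ) (ε : ℝ) (hε : 0 < ε) :
    ∃ c : ℝ, 0 < c ∧ ∃ K : ℝ, ∀ y : ℝ, 2 ≤ y → ∀ N : ℕ,
      (Set.ncard {x : ℤ | |x| ≤ N ∧ (∃ s ∈ C, x ≡ s.1 [ZMOD (d * s.2 : ℕ)]) ∧ ¬ ∃ τ : ℕ,
        |(((T d m r)^[τ] x : ℤ) : ℝ)| ≤ y ∧ (∀ k < τ, y < |(((T d m r)^[k] x : ℤ) : ℝ)|) ∧
        (τ : ℝ) ≤ (1 / (-Real.log Λ) + ε) * Real.log N ∧ ∀ k k' : ℕ, k ≤ k' → k' ≤ τ →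
          |∑ t ∈ Ico k k', f ((T d m r)^[t] x : ℤ) - ((k' : ℝ) - k) * ∑ i, p i * f i|
            ≤ ε * Real.log |(((T d m r)^[k] x : ℤ) : ℝ)|} : ℝ) ≤ K * N / y ^ c := by
  let L : LData := ⟨d, hd, m, r, b, a, hm, hr, hfac, hb, C, fun s hs => (hC s hs).1, closed, comm,
    ρ, ρ_nonneg, ρ_sum, ρ_stat⟩
  obtain rfl : p = fun i => ∑ s ∈ C with (s.1 : ZMod d) = i, ρ s := funext hp
  exact Td.leigh_all L Λ hΛ contracting f ε hε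

end Pool.Agent.Results.MP_39d40e_nt.TypicalDescent
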