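import Pool.Agent.Lib.MP_39d40e_nt.UnZ

namespace Pool.Agent.Results.MP_39d40e_nt.UniformBasin

open Finset Filter Pool.Agent.Lib.MP_39d40e_nt

theorem result (d : ℕ) [NeZero d] (hd : 2 ≤ d) (m r b : ZMod d → ℤ) (a : ZMod d → ℕ)
    (hm : ∀ i, m i ≠ 0) (hr : ∀ i, (r i : ZMod d) = i * m i)
    (hfac : ∀ i, m i = b i * a i) (hb : ∀ i, IsCoprime (b i) d) (_ha : ∀ i, ∃ n, a i ∣ d ^ n)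
    (C : Finset (ℕ × ℕ)) (hC : ∀ s ∈ C, s.1 < d * s.2 ∧ ∃ n, s.2 ∣ d ^ n)
    (closed : ∀ s ∈ C, ∀ s', 0 < P d m r a s s' → s' ∈ C)
    (comm : ∀ s ∈ C, ∀ s' ∈ C, Relation.ReflTransGen (fun t t' => 0 < P d m r a t t') s s')
    (ρ : ℕ × ℕ → ℝ) (ρ_nonneg : ∀ s ∈ C, 0 ≤ ρ s) (ρ_sum : ∑ s ∈ C, ρ s = 1)
    (ρ_stat : ∀ s' ∈ C, ∑ s ∈ C, ρ s * P d m r a s s' = ρ s')
    (hΛ : ∏ i : ZMod d, |(m i : ℝ) / d| ^ (∑ s ∈ C with (s.1 : ZMod d) = i, ρ s) < 1)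
    (n : ℕ) (hn : 0 < n) (σ : ℕ → ℕ × ℕ) (hσ0 : σ 0 ∈ C) (hσn : σ n = σ 0)
    (hσ : ∀ t < n, 0 < P d m r a (σ t) (σ (t + 1)) ∧ |b (σ t).1| = 1) (v : ℕ) :
    ∃ c : ℝ, 0 < c ∧ ∃ x0 : ℝ, ∀ y z : ℤ,
      (∀ t ≤ n, (T d m r)^[t] y ≡ (σ t).1 [ZMOD (d * (σ t).2 : ℕ)]) →
      (T d m r)^[n] y = z → y ≠ z →
      (∀ p : ℕ, p.Prime → (p : ℤ) ∣ ∏ s ∈ C, b s.1 → ¬ (p : ℤ) ^ v ∣ y - z) →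
      (∀ k : ℕ, ∃ (N : ℕ) (x : ℤ) (τ : ℕ → ℕ × ℕ), τ 0 ∈ C ∧ τ N = σ 0 ∧
        (∀ t < N, 0 < P d m r a (τ t) (τ (t + 1))) ∧
        (∀ t ≤ N, (T d m r)^[t] x ≡ (τ t).1 [ZMOD (d * (τ t).2 : ℕ)]) ∧
        (∏ s ∈ C, b s.1) ^ k ∣ ∏ t ∈ range N, b ((T d m r)^[t] x : ℤ) ∧
        (∏ s ∈ C, b s.1) ^ k ∣ (T d m r)^[N] x - z) →
      ∀ X : ℝ, x0 ≤ X → c * X ≤ (Set.ncard {w : ℤ | |(w : ℝ)| ≤ X * (|(z : ℝ)| + 1) ∧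
        (∃ s ∈ C, w ≡ s.1 [ZMOD (d * s.2 : ℕ)]) ∧ ∃ j : ℕ, (T d m r)^[j] w = z} : ℝ) := by
  let L : LData := ⟨d, hd, m, r, b, a, hm, hr, hfac, hb, C, fun s hs => (hC s hs).1, closed, comm,
    ρ, ρ_nonneg, ρ_sum, ρ_stat⟩
  exact Un.leigh_all L hΛ (fun s hs => (hC s hs).2) n hn σ hσ0 hσn hσ v

end Pool.Agent.Results.MP_39d40e_nt.UniformBasin
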